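import Pool.Agent.H630.MB.Ground

/-!
# Consistently, `𝔡(≠*_{∅})` differs from `𝔡^𝔠_κ` for every `κ ≤ 𝔠`

Let `κ = ℶ_{ω₁}` and `ν = 2 ^ κ`. We force with `H × Random κ`. The conditions of `H` are partial
functions `a` from `ω₁ × (ν⁺ × κ)` to `κ` such that for each `i < ω₁` at most `ℶ_i` elements of the
domain have level (first coordinate) at most `i`, and the value at a point of level `i` belongs to
the union of the first `i + 1` pieces of a partition of `κ` into pieces of size `ℶ_{i+1}`. So for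
each `i < ω₁` the forcing `H` adds `ν⁺` many generic functions from `κ` to a set of size
`ℶ_{i+1}`; no `ν` many functions from `κ` to `μ` are dominating in the extension, whenever
`ℵ₀ ≤ μ ≤ κ`. A fusion lemma (`Pool.Agent.H630.MB.fusion`) says that for every sequence
`(D_x : x < κ)` of dense sets there are densely many conditions below which each `D_x` has a
predense subset of size less than `κ`; so in the extension still `𝔠 = 𝔟(≠*) = κ` is a cardinal,
and the `ν` many functions which are given by the random reals witness `𝔡(≠*_{∅}) ≤ ν`.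

The forcing language is that of `Pool.Agent.TH773.PSet.Defs`: a sentence is a regular open
subset of the forcing `P`, and `p ∈ φ` says that `p` forces `φ`.
-/

set_option autoImplicit false

open Cardinal Pool.Agent.H630.MB
open Pool.Agent.R592.Hd (bNe dEmpty dHigh)

namespace Pool.Agent.Results.MP_7b1404_lc.AllKappa

/-- It is consistent that `𝔡(≠*_{∅}) ≠ 𝔡^𝔠_μ` for every cardinal `μ ≤ 𝔠`.

(1) For some `κ` and `ν` some nonempty forcing forces the sentence `Model κ ν`.
(2) The meaning of the sentence `Model κ ν` (its value over the trivial forcing) is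
`κ = 𝔠 = 𝔟(≠*)` and `𝔡(≠*_{∅}) ≤ ν < 𝔡^𝔠_μ` for every infinite cardinal `μ ≤ 𝔠`.
(3) So it implies that `𝔡(≠*_{∅}) ≠ 𝔡^𝔠_μ` for every cardinal `μ ≤ 𝔠`. -/
theorem result :
    (∃ (κ ν : Cardinal.{0}) (P : Type) (_ : Preorder P), Nonempty P ∧
      ∀ p : P, p ∈ Model.{0, 0} P κ ν) ∧
    (∀ (κ ν : Cardinal.{0}) (p : Unit), p ∈ Model.{0, 0} Unit κ ν ↔
      (κ = 𝔠 ∧ bNe = 𝔠 ∧ dEmpty ≤ ν ∧
        ∀ μ : Cardinal.{0}, ℵ₀ ≤ μ → μ ≤ 𝔠 → ν < dHigh 𝔠 μ)) ∧
    (∀ (κ ν : Cardinal.{0}) (p : Unit), p ∈ Model.{0, 0} Unit κ ν →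
      ∀ μ : Cardinal.{0}, μ ≤ 𝔠 → dEmpty ≠ dHigh 𝔠 μ) := by
  refine ⟨exists_model, fun κ ν p => unit_model, fun κ ν p hp μ hμ => ?_⟩
  obtain ⟨-, -, h1, h2⟩ := unit_model.1 hp
  rcases le_or_gt ℵ₀ μ with h | h
  · exact (h1.trans_lt (h2 μ h hμ)).ne
  · exact ((dHigh_le_one h).trans_lt one_lt_dEmpty).ne'

end Pool.Agent.Results.MP_7b1404_lc.AllKappa
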